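import Pool.Agent.Lib.helper20.C0
import Pool.Agent.Lib.helper18.Renorm

open Filter Topology Set

namespace Pool.Agent.H.MP_a7d15e_an

open Pool.Agent.Lib.helper20

def L : Type := lp (fun _ : ℕ => ℝ) 1

noncomputable instance : NormedAddCommGroup L :=
  inferInstanceAs (NormedAddCommGroup (lp (fun _ : ℕ => ℝ) 1))
noncomputable instance : NormedSpace ℝ L := inferInstanceAs (NormedSpace ℝ (lp (fun _ : ℕ => ℝ) 1))
instance : CompleteSpace L := inferInstanceAs (CompleteSpace (lp (fun _ : ℕ => ℝ) 1))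

def toL (b : L) : lp (fun _ : ℕ => ℝ) 1 := b

def co (b : L) (m : ℕ) : ℝ := toL b m

theorem L_ext {b c : L} (h : ∀ m, co b m = co c m) : b = c :=
  lp.ext (f := toL b) (g := toL c) (funext h)

theorem co_add (b c : L) (m : ℕ) : co (b + c) m = co b m + co c m := rfl
theorem co_sub (b c : L) (m : ℕ) : co (b - c) m = co b m - co c m := rfl
theorem co_smul (t : ℝ) (b : L) (m : ℕ) : co (t • b) m = t * co b m := rfl
theorem co_zero (m : ℕ) : co 0 m = 0 := rfl

theorem hasSum_abs (b : L) : HasSum (fun m => |co b m|) ‖b‖ := by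
  have := lp.hasSum_norm (p := 1) (by simp) (toL b)
  simp only [ENNReal.toReal_one, Real.rpow_one, Real.norm_eq_abs] at this
  exact this

noncomputable def maskF (A : Set ℕ) (b : L) : L :=
  show lp (fun _ : ℕ => ℝ) 1 from
  ⟨fun m => A.indicator (co b) m, (lp.memℓp (toL b)).mono' fun _ => norm_indicator_le_norm_self _ _⟩

theorem co_maskF (A : Set ℕ) (b : L) (m : ℕ) : co (maskF A b) m = A.indicator (co b) m := rfl

theorem norm_le_of (b c : L) (h : ∀ m, |co b m| ≤ |co c m|) : ‖b‖ ≤ ‖c‖ :=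
  hasSum_le h (hasSum_abs b) (hasSum_abs c)

noncomputable def mask (A : Set ℕ) : L →L[ℝ] L :=
  LinearMap.mkContinuous
    { toFun := maskF A
      map_add' := fun b c => L_ext fun m => by
        simp only [co_add, co_maskF]; by_cases h : m ∈ A <;> simp [h, co_add]
      map_smul' := fun t b => L_ext fun m => by
        simp only [co_smul, co_maskF, RingHom.id_apply]; by_cases h : m ∈ A <;> simp [h, co_smul] }
    1 (fun b => by
      rw [one_mul]
      exact norm_le_of _ _ fun m => norm_indicator_le_norm_self (co b) m)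

theorem co_mask (A : Set ℕ) (b : L) (m : ℕ) : co (mask A b) m = A.indicator (co b) m := rfl

theorem norm_mask_le (A : Set ℕ) (b : L) : ‖mask A b‖ ≤ ‖b‖ :=
  norm_le_of _ _ fun m => norm_indicator_le_norm_self (co b) m

theorem mask_two (A B C D : Set ℕ) (b : L) (h1 : ∀ m, m ∈ A → m ∈ B → m ∈ C → False)
    (h2 : ∀ m, m ∈ A → m ∈ D) (h3 : ∀ m, m ∈ B → m ∈ C → m ∈ D) :
    ‖mask A b‖ + ‖mask B (mask C b)‖ ≤ ‖mask D b‖ := by
  refine hasSum_le (fun m => ?_) ((hasSum_abs _).add (hasSum_abs _)) (hasSum_abs _)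
  have k1 := h1 m
  have k2 := h2 m
  have k3 := h3 m
  simp only [co_mask]
  by_cases hA : m ∈ A <;> by_cases hB : m ∈ B <;> by_cases hC : m ∈ C <;> by_cases hD : m ∈ D <;>
    simp_all [co_mask]

theorem mask_compl (A : Set ℕ) (b : L) : mask A b + mask Aᶜ b = b :=
  L_ext fun m => by
    simp only [co_add, co_mask]; by_cases h : m ∈ A <;> simp [h]

theorem mask_zero (b : L) : mask (Ici 0) b = b := L_ext fun m => by simp [co_mask]

noncomputable def z (m : ℕ) : L := show lp (fun _ : ℕ => ℝ) 1 from lp.single 1 m (1 : ℝ)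

theorem co_z (m k : ℕ) : co (z m) k = if k = m then 1 else 0 := by
  simp only [co, toL, z, lp.single_apply, Pi.single_apply]

theorem norm_z (m : ℕ) : ‖z m‖ = 1 := by
  have := lp.norm_single (E := fun _ : ℕ => ℝ) (p := 1) (by simp) m (1 : ℝ)
  rw [norm_one] at this
  exact this

theorem hasSum_z (b : L) : HasSum (fun m => co b m • z m) b := by
  have h0 : HasSum (α := L) (fun m => (lp.single 1 m (toL b m) : lp (fun _ : ℕ => ℝ) 1)) b :=
    lp.hasSum_single (p := 1) (by simp) (toL b)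
  have h1 : (fun m => co b m • z m) =
      (fun m => ((lp.single 1 m (toL b m) : lp (fun _ : ℕ => ℝ) 1) : L)) := by
    funext m
    apply L_ext
    intro k
    rw [co_smul, co_z]
    simp only [co, toL, lp.single_apply, Pi.single_apply]
    split_ifs <;> simp
  rw [h1]; exact h0

theorem func_bound (h : L →L[ℝ] ℝ) (A : Set ℕ) (η : ℝ) (h0 : 0 ≤ η) (hA : ∀ m ∈ A, |h (z m)| ≤ η)
    (b : L) : |h (mask A b)| ≤ η * ‖b‖ := by
  have h1 := (hasSum_z (mask A b)).mapL h
  refine h1.norm_le_of_bounded ((hasSum_abs b).mul_left η) fun m => ?_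
  rw [map_smul, smul_eq_mul, Real.norm_eq_abs, abs_mul, co_mask]
  by_cases hm : m ∈ A
  · rw [indicator_of_mem hm, mul_comm]
    exact mul_le_mul_of_nonneg_right (hA m hm) (abs_nonneg _)
  · rw [indicator_of_notMem hm]; simp only [abs_zero, zero_mul]; positivity

noncomputable def sm : L →L[ℝ] ℝ := lp.tsumCLM ℝ ℕ ℝ

theorem sm_le (b : L) : |sm b| ≤ ‖b‖ := lp.norm_tsum_le (toL b)

theorem sm_z (m : ℕ) : sm (z m) = 1 := by
  change ∑' k, co (z m) k = 1
  simp [co_z]

theorem mask_z (A : Set ℕ) (m : ℕ) (hm : m ∈ A) : mask A (z m) = z m := L_ext fun k => by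
  rw [co_mask]
  by_cases h : k ∈ A
  · rw [indicator_of_mem h]
  · rw [indicator_of_notMem h, co_z, if_neg]
    rintro rfl; exact h hm

theorem mask_tendsto (b : L) : Tendsto (fun k => mask (Iio k) b) atTop (𝓝 b) := by
  refine (hasSum_z b).tendsto_sum_nat.congr fun k => L_ext fun m => ?_
  have : ∀ s : Finset ℕ, co (∑ i ∈ s, co b i • z i) m = ∑ i ∈ s, co b i * co (z i) m := by
    intro s
    induction s using Finset.induction_on with
    | empty => simp [co_zero]
    | insert a s ha ih => rw [Finset.sum_insert ha, Finset.sum_insert ha, co_add, co_smul, ih]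
  rw [this, co_mask]
  simp only [co_z, mul_ite, mul_one, mul_zero, Finset.sum_ite_eq, Finset.mem_range]
  by_cases h : m < k <;> simp [h]

theorem c0_tail (g : C0.X →L[ℝ] ℝ) (η : ℝ) (hη : 0 < η) :
    ∃ N, ∀ k, N ≤ k → ∀ a, |g (a - C0.trunc k a)| ≤ η * ‖a‖ := by
  have hs : Summable (fun k => |g (C0.e k)|) := by
    refine summable_of_sum_range_le (c := ‖g‖) (fun _ => abs_nonneg _) fun n => ?_
    let s : C0.X := ∑ k ∈ Finset.range n, (SignType.sign (g (C0.e k)) : ℝ) • C0.e k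
    have h1 : ‖s‖ ≤ 1 := by
      refine C0.norm_le _ _ zero_le_one fun j => ?_
      simp only [s, map_sum, map_smul, C0.ev_e, smul_eq_mul, mul_ite, mul_one, mul_zero,
        Finset.sum_ite_eq]
      split_ifs
      · generalize SignType.sign (g (C0.e j)) = t
        cases t <;> simp
      · simp
    have h2 : g s = ∑ k ∈ Finset.range n, |g (C0.e k)| := by
      simp only [s, map_sum, map_smul, smul_eq_mul, sign_mul_self]
    rw [← h2]
    exact (le_abs_self _).trans (g.unit_le_opNorm s h1)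
  obtain ⟨N, hN⟩ := Metric.cauchySeq_iff.1 hs.hasSum.tendsto_sum_nat.cauchySeq η hη
  refine ⟨N, fun k hk a => ?_⟩
  have l1 : Tendsto (fun M => |g (C0.trunc M a - C0.trunc k a)|) atTop (𝓝 |g (a - C0.trunc k a)|) :=
    ((g.continuous.tendsto _).comp ((C0.trunc_tendsto a).sub_const _)).abs
  refine le_of_tendsto l1 ?_
  filter_upwards [eventually_ge_atTop k] with M hM
  have h3 := hN M (hk.trans hM) k hk
  rw [Real.dist_eq, ← Finset.sum_Ico_eq_sub _ hM] at h3
  rw [C0.trunc_eq, C0.trunc_eq, ← Finset.sum_Ico_eq_sub _ hM, map_sum]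
  refine (Finset.abs_sum_le_sum_abs _ _).trans ?_
  calc ∑ i ∈ Finset.Ico k M, |g (C0.ev i a • C0.e i)|
      ≤ ∑ i ∈ Finset.Ico k M, |g (C0.e i)| * ‖a‖ := Finset.sum_le_sum fun i _ => by
        rw [map_smul, smul_eq_mul, abs_mul, mul_comm]
        exact mul_le_mul_of_nonneg_left (C0.abs_le_norm a i) (abs_nonneg _)
    _ ≤ η * ‖a‖ := by
        rw [← Finset.sum_mul]
        exact mul_le_mul_of_nonneg_right ((le_abs_self _).trans h3.le) (norm_nonneg _)

noncomputable def N (p : C0.X × L) : ℝ := ⨆ n, (|C0.ev n p.1| + ‖mask (Ici n) p.2‖)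

theorem N_ge (p : C0.X × L) (n : ℕ) : |C0.ev n p.1| + ‖mask (Ici n) p.2‖ ≤ N p :=
  le_ciSup (f := fun n => |C0.ev n p.1| + ‖mask (Ici n) p.2‖) ⟨‖p.1‖ + ‖p.2‖, by
    rintro _ ⟨n, rfl⟩
    exact add_le_add (C0.abs_le_norm _ _) (norm_mask_le _ _)⟩ n

theorem N_le (p : C0.X × L) (c : ℝ) (h : ∀ n, |C0.ev n p.1| + ‖mask (Ici n) p.2‖ ≤ c) : N p ≤ c :=
  ciSup_le h

theorem N_snd (p : C0.X × L) : ‖p.2‖ ≤ N p := by
  have := N_ge p 0
  rw [mask_zero] at this
  linarith [abs_nonneg (C0.ev 0 p.1)]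

theorem N_fst (p : C0.X × L) : ‖p.1‖ ≤ N p :=
  C0.norm_le _ _ ((norm_nonneg _).trans (N_snd p)) fun n => by
    linarith [N_ge p n, norm_nonneg (mask (Ici n) p.2)]

theorem N_up (p : C0.X × L) : N p ≤ ‖p.1‖ + ‖p.2‖ :=
  N_le _ _ fun _ => add_le_add (C0.abs_le_norm _ _) (norm_mask_le _ _)

theorem space : ∃ (E : Type) (_ : NormedAddCommGroup E) (_ : NormedSpace ℝ E) (_ : CompleteSpace E)
    (e : E ≃L[ℝ] (C0.X × L)), ∀ x, ‖x‖ = N (e x) := by
  refine Pool.Agent.Lib.helper18.exists_renorm ℝ (C0.X × L) N 1 2 one_pos (fun p => ?_)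
    (fun p => ?_) (fun p q => ?_) (fun t p => ?_)
  · rw [one_mul, Prod.norm_def]; exact max_le (N_fst p) (N_snd p)
  · linarith [N_up p, norm_fst_le p, norm_snd_le p]
  · refine N_le _ _ fun n => ?_
    rw [Prod.fst_add, Prod.snd_add, map_add, map_add]
    linarith [N_ge p n, N_ge q n, abs_add_le (C0.ev n p.1) (C0.ev n q.1),
      norm_add_le (mask (Ici n) p.2) (mask (Ici n) q.2)]
  · unfold N
    rw [Real.mul_iSup_of_nonneg (norm_nonneg t)]
    congr 1; funext n
    rw [Prod.smul_fst, Prod.smul_snd, map_smul, map_smul, norm_smul, smul_eq_mul, abs_mul,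
      Real.norm_eq_abs, mul_add]

theorem ulim {Z : Type*} [NormedAddCommGroup Z] [NormedSpace ℝ Z] {ι : Type*} (V : Ultrafilter ι)
    (φ : ι → StrongDual ℝ Z) (h : ∀ i, ‖φ i‖ ≤ 1) :
    ∃ F : StrongDual ℝ Z, ‖F‖ ≤ 1 ∧ ∀ w, Tendsto (fun i => φ i w) V (𝓝 (F w)) := by
  obtain ⟨F, hF, hl⟩ := (WeakDual.isCompact_closedBall (0 : StrongDual ℝ Z) 1).ultrafilter_le_nhds
    (V.map fun i => StrongDual.toWeakDual (φ i)) (by
      rw [le_principal_iff]
      exact Ultrafilter.mem_map.2 (univ_mem' fun i => by simpa using h i))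
  refine ⟨WeakDual.toStrongDual F, by simpa using hF, fun w => ?_⟩
  exact ((WeakDual.eval_continuous w).tendsto F).comp hl

end Pool.Agent.H.MP_a7d15e_an
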