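import Pool.Agent.H.MP_a7d15e_an.A

open Filter Topology Set

namespace Pool.Agent.H.MP_a7d15e_an

open Pool.Agent.Lib.helper20

variable {E : Type} [NormedAddCommGroup E] [NormedSpace ℝ E] (e : E ≃L[ℝ] (C0.X × L))
  (he : ∀ x, ‖x‖ = N (e x))

noncomputable def P (k : ℕ) (A : Set ℕ) : E →L[ℝ] E :=
  (e.symm : C0.X × L →L[ℝ] E).comp (((C0.trunc k).prodMap (mask A)).comp (e : E →L[ℝ] C0.X × L))

theorem eP (k : ℕ) (A : Set ℕ) (x : E) : e (P e k A x) = (C0.trunc k (e x).1, mask A (e x).2) := by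
  simp [P, Prod.map]

noncomputable def eA (A : Set ℕ) : StrongDual ℝ E :=
  sm.comp ((mask A).comp ((ContinuousLinearMap.snd ℝ C0.X L).comp (e : E →L[ℝ] C0.X × L)))

theorem eA_apply (A : Set ℕ) (x : E) : eA e A x = sm (mask A (e x).2) := rfl

include he

theorem big (k : ℕ) (x : E) (hx : ‖x‖ ≤ 1) (t : ℝ) (ht : |t| ≤ 1) :
    ‖P e k (Iio k) x + t • e.symm (C0.e k, 0)‖ ≤ 1 := by
  rw [he, map_add, map_smul, eP, e.apply_symm_apply]
  refine N_le _ _ fun n => ?_
  rw [he] at hx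
  simp only [Prod.fst_add, Prod.snd_add, Prod.smul_fst, Prod.smul_snd, smul_zero, add_zero, map_add,
    map_smul, C0.ev_trunc, C0.ev_e, smul_eq_mul]
  rcases lt_or_ge n k with h | h
  · rw [if_pos h, if_neg h.ne, mul_zero, add_zero]
    have h1 : ‖mask (Ici n) (mask (Iio k) (e x).2)‖ ≤ ‖mask (Ici n) (e x).2‖ := by
      have := mask_two ∅ (Ici n) (Iio k) (Ici n) (e x).2 (fun _ h _ _ => h) (fun _ h => h.elim)
        (fun _ h _ => h)
      linarith [norm_nonneg (mask ∅ (e x).2)]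
    linarith [N_ge (e x) n]
  · have h1 : mask (Ici n) (mask (Iio k) (e x).2) = 0 := L_ext fun m => by
      rw [co_mask, co_zero]
      by_cases hm : m ∈ Ici n
      · rw [indicator_of_mem hm, co_mask, indicator_of_notMem]
        exact not_lt.2 (h.trans hm)
      · rw [indicator_of_notMem hm]
    rw [h1, if_neg (not_lt.2 h), norm_zero, add_zero, zero_add]
    split_ifs <;> simp [ht]

theorem ssd (n : ℕ) (f : Fin n → StrongDual ℝ E) (α : Fin n → ℝ) (hf : ∀ i, ‖f i‖ = 1)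
    (hα : ∀ i, 0 < α i) :
    ∃ (x : Fin n → E) (y : E), ‖y‖ = 1 ∧ ∀ i, ∀ t : ℝ, |t| ≤ 1 →
      ‖x i + t • y‖ ≤ 1 ∧ 1 - α i < f i (x i + t • y) := by
  have h1 : ∀ i, ∃ x : E, ‖x‖ ≤ 1 ∧ 1 - α i / 2 < f i x := fun i => by
    obtain ⟨x, hx1, hx2⟩ := (f i).exists_lt_apply_of_lt_opNorm (r := 1 - α i / 2)
      (by rw [hf]; linarith [hα i])
    rw [Real.norm_eq_abs] at hx2
    rcases le_total 0 (f i x) with h | h
    · exact ⟨x, hx1.le, by rwa [abs_of_nonneg h] at hx2⟩
    · exact ⟨-x, by rw [norm_neg]; exact hx1.le, by rwa [abs_of_nonpos h, ← map_neg] at hx2⟩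
  choose x hx1 hx2 using h1
  have h2 : ∀ i, ∀ᶠ k in atTop, 1 - α i / 2 < f i (P e k (Iio k) (x i)) ∧
      |f i (e.symm (C0.e k, 0))| ≤ α i / 2 := fun i => by
    refine Eventually.and ?_ ?_
    · have l1 : Tendsto (fun k => e.symm (C0.trunc k (e (x i)).1, mask (Iio k) (e (x i)).2)) atTop
          (𝓝 (e.symm ((e (x i)).1, (e (x i)).2))) :=
        (e.symm.continuous.tendsto _).comp ((C0.trunc_tendsto _).prodMk_nhds (mask_tendsto _))
      rw [Prod.mk.eta, e.symm_apply_apply] at l1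
      have l2 := ((f i).continuous.tendsto _).comp l1
      filter_upwards [l2.eventually (lt_mem_nhds (hx2 i))] with k hk
      rw [← e.symm_apply_apply (P e k (Iio k) (x i)), eP]; exact hk
    · obtain ⟨M, hM⟩ := c0_tail ((f i).comp ((e.symm : C0.X × L →L[ℝ] E).comp
        (ContinuousLinearMap.inl ℝ C0.X L))) (α i / 2) (by linarith [hα i])
      filter_upwards [eventually_ge_atTop M] with k hk
      have := hM k hk (C0.e k)
      have h0 : C0.trunc k (C0.e k) = 0 := C0.ext fun j => by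
        rw [C0.ev_trunc, C0.ev_e, map_zero]; split_ifs <;> first | rfl | omega
      rw [h0, sub_zero, C0.norm_e, mul_one] at this
      exact this
  obtain ⟨k, hk⟩ := (eventually_all.2 h2).exists
  refine ⟨fun i => P e k (Iio k) (x i), e.symm (C0.e k, 0), ?_, fun i t ht =>
    ⟨big e he k (x i) (hx1 i) t ht, ?_⟩⟩
  · rw [he, e.apply_symm_apply]
    have a1 := N_fst (C0.e k, 0)
    have a2 := N_up (C0.e k, 0)
    simp only [C0.norm_e, norm_zero, add_zero] at a1 a2
    linarith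
  · rw [map_add, map_smul, smul_eq_mul]
    have a1 : |t * f i (e.symm (C0.e k, 0))| ≤ 1 * (α i / 2) := by
      rw [abs_mul]; exact mul_le_mul ht (hk i).2 (abs_nonneg _) zero_le_one
    linarith [(hk i).1, (abs_le.1 a1).1]

theorem eA_add (k : ℕ) (A : Set ℕ) (hA : A ⊆ Ici k) (f : StrongDual ℝ E) (hf : ‖f‖ ≤ 1) :
    ‖eA e A + f.comp (P e k Aᶜ)‖ ≤ 1 := by
  refine ContinuousLinearMap.opNorm_le_bound _ zero_le_one fun x => ?_
  rw [one_mul, add_apply, eA_apply]
  refine (norm_add_le _ _).trans ?_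
  have h1 := sm_le (mask A (e x).2)
  have h2 : ‖(f.comp (P e k Aᶜ)) x‖ ≤ ‖P e k Aᶜ x‖ := by
    have := f.le_of_opNorm_le hf (P e k Aᶜ x)
    rwa [one_mul] at this
  have h3 : ‖P e k Aᶜ x‖ ≤ ‖x‖ - ‖mask A (e x).2‖ := by
    rw [he, he, eP]
    refine N_le _ _ fun n => ?_
    simp only [C0.ev_trunc]
    split_ifs with h
    · have := mask_two A (Ici n) Aᶜ (Ici n) (e x).2 (fun _ a _ c => c a)
        (fun m a => h.le.trans (hA a)) (fun _ a _ => a)
      linarith [N_ge (e x) n]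
    · have := mask_two A (Ici n) Aᶜ (Ici 0) (e x).2 (fun _ a _ c => c a)
        (fun m _ => Nat.zero_le m) (fun m _ _ => Nat.zero_le m)
      rw [mask_zero] at this
      rw [abs_zero]
      linarith [N_snd (e x)]
  rw [Real.norm_eq_abs]
  linarith

theorem eA_norm (A : Set ℕ) : ‖eA e A‖ ≤ 1 := by
  have := eA_add e he 0 A (fun m _ => Nat.zero_le m) 0 (by simp)
  simpa using this

theorem dec (f : StrongDual ℝ E) (c η : ℝ) (hη : 0 < η) :
    ∃ k, ∀ A : Set ℕ, (∀ m ∈ A, |f (e.symm (0, z m)) - c| ≤ η) →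
      ‖f - c • eA e A - f.comp (P e k Aᶜ)‖ ≤ 2 * η := by
  obtain ⟨k, hk⟩ := c0_tail (f.comp ((e.symm : C0.X × L →L[ℝ] E).comp
    (ContinuousLinearMap.inl ℝ C0.X L))) η hη
  refine ⟨k, fun A hA => ContinuousLinearMap.opNorm_le_bound _ (by positivity) fun x => ?_⟩
  have h1 := hk k le_rfl (e x).1
  have h2 := func_bound (f.comp ((e.symm : C0.X × L →L[ℝ] E).comp
    (ContinuousLinearMap.inr ℝ C0.X L)) - c • sm) A η hη.le (fun m hm => by
      simpa [sm_z] using hA m hm) (e x).2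
  have h3 : x = e.symm ((e x).1 - C0.trunc k (e x).1, 0) + e.symm (0, mask A (e x).2) +
      P e k Aᶜ x := by
    apply e.injective
    rw [map_add, map_add, eP, e.apply_symm_apply, e.apply_symm_apply]
    ext1
    · simp
    · simp [mask_compl]
  have h4 : (f - c • eA e A - f.comp (P e k Aᶜ)) x =
      f (e.symm ((e x).1 - C0.trunc k (e x).1, 0)) +
        (f (e.symm (0, mask A (e x).2)) - c * sm (mask A (e x).2)) := by
    have h5 := congrArg f h3
    rw [map_add, map_add] at h5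
    simp only [sub_apply, smul_apply, eA_apply,
      ContinuousLinearMap.comp_apply, smul_eq_mul]
    linarith
  rw [h4, Real.norm_eq_abs]
  refine (abs_add_le _ _).trans ?_
  have h6 : |f (e.symm ((e x).1 - C0.trunc k (e x).1, 0))| ≤ η * ‖(e x).1‖ := h1
  have h7 : |f (e.symm (0, mask A (e x).2)) - c * sm (mask A (e x).2)| ≤ η * ‖(e x).2‖ := h2
  have h8 := mul_le_mul_of_nonneg_left (N_fst (e x)) hη.le
  have h9 := mul_le_mul_of_nonneg_left (N_snd (e x)) hη.le
  rw [he]; linarith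

end Pool.Agent.H.MP_a7d15e_an
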