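import Pool.Agent.H.MP_a7d15e_an.B

open Filter Topology Set

namespace Pool.Agent.H.MP_a7d15e_an

open Pool.Agent.Lib.helper20

def Bad (Z : Type) [NormedAddCommGroup Z] [NormedSpace ℝ Z] : Prop :=
  ∃ F : StrongDual ℝ Z, ‖F‖ = 1 ∧ ∀ G H : Z, ‖G + H‖ ≤ 1 →
      ‖G - H‖ ≤ 1 → 3 / 4 < F (G + H) → 3 / 4 < F (G - H) → ‖H‖ ≤ 1 / 2

theorem bid {Y : Type} [NormedAddCommGroup Y] [NormedSpace ℝ Y] (ζ : ℕ → StrongDual ℝ Y)
    (hζ : ∀ m, ‖ζ m‖ ≤ 1) (u : Set ℕ → Y) (h1 : ∀ A, ‖u A‖ ≤ 1)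
    (h2 : ∀ A, ∀ m ∈ A, ζ m (u A) = 1)
    (h3 : ∀ f : Y, ‖f‖ ≤ 1 → ∀ c η : ℝ, 0 < η → ∃ k, ∀ A ⊆ Ici k, (∀ m ∈ A, |ζ m f - c| ≤ η) →
      ∃ g, ‖u A + g‖ ≤ 1 ∧ ‖u A - g‖ ≤ 1 ∧ ‖f - c • u A - g‖ ≤ 2 * η) :
    Bad (StrongDual ℝ Y) := by
  let U : Ultrafilter ℕ := hyperfilter ℕ
  obtain ⟨δ, hδ1, hδ2⟩ := ulim U ζ hζ
  have hne : ((U : Filter ℕ).smallSets ⊓ 𝓟 {s | s ∈ (U : Filter ℕ)}).NeBot :=
    frequently_iff_neBot.1 (frequently_smallSets_mem (U : Filter ℕ))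
  let V := Ultrafilter.of ((U : Filter ℕ).smallSets ⊓ 𝓟 {s | s ∈ (U : Filter ℕ)})
  have hV := Ultrafilter.of_le ((U : Filter ℕ).smallSets ⊓ 𝓟 {s | s ∈ (U : Filter ℕ)})
  have hV1 : ∀ᶠ A in (V : Filter (Set ℕ)), A ∈ (U : Filter ℕ) :=
    (hV.trans inf_le_right) (mem_principal_self _)
  have hV2 : ∀ B ∈ (U : Filter ℕ), ∀ᶠ A in (V : Filter (Set ℕ)), A ⊆ B := fun B hB =>
    (hV.trans inf_le_left) (eventually_smallSets_subset.2 hB)
  obtain ⟨F, hF1, hF2⟩ := ulim (Z := StrongDual ℝ Y) V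
    (fun A => NormedSpace.inclusionInDoubleDual ℝ Y (u A))
    (fun A => (NormedSpace.double_dual_bound ℝ Y (u A)).trans (h1 A))
  have hF3 : ∀ W : StrongDual ℝ Y, Tendsto (fun A => W (u A)) V (𝓝 (F W)) := hF2
  have hFδ : F δ = 1 := by
    refine tendsto_nhds_unique (hF3 δ) (tendsto_const_nhds.congr' ?_)
    filter_upwards [hV1] with A hA
    refine tendsto_nhds_unique (tendsto_const_nhds.congr' ?_) (hδ2 (u A))
    filter_upwards [hA] with m hm using (h2 A m hm).symm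
  refine ⟨F, le_antisymm hF1 ?_, fun G H k1 k2 k3 k4 => ?_⟩
  · have := F.unit_le_opNorm δ hδ1
    rwa [hFδ, norm_one] at this
  refine ContinuousLinearMap.opNorm_le_of_unit_norm (by norm_num) fun f hf => ?_
  set c := δ f with hc
  have hc1 : |c| ≤ 1 := (δ.unit_le_opNorm f hf.le).trans hδ1
  obtain ⟨k, hk⟩ := h3 f hf.le c (1 / 16) (by norm_num)
  have e1 : {m | |ζ m f - c| ≤ 1 / 16} ∈ (U : Filter ℕ) := by
    filter_upwards [Metric.tendsto_nhds.1 (hδ2 f) (1 / 16) (by norm_num)] with m hm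
    rw [Real.dist_eq] at hm; exact hm.le
  have e2 : Ici k ∈ (U : Filter ℕ) := by
    apply hyperfilter_le_cofinite
    rw [Nat.cofinite_eq_atTop]; exact Ici_mem_atTop k
  obtain ⟨A, a1, a2, a3, a4⟩ := ((hV2 _ e1).and ((hV2 _ e2).and
    (((hF3 _).eventually (lt_mem_nhds k3)).and ((hF3 _).eventually (lt_mem_nhds k4))))).exists
  obtain ⟨g, g1, g2, g3⟩ := hk A a2 fun m hm => a1 hm
  have key : ∀ W : StrongDual ℝ Y, ‖W‖ ≤ 1 → 3 / 4 < W (u A) →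
      |W f - c * W (u A)| ≤ 3 / 8 ∧ W (u A) ≤ 1 := by
    intro W w1 w2
    have b1 := (le_abs_self _).trans ((W.unit_le_opNorm _ g1).trans w1)
    have b2 := (le_abs_self _).trans ((W.unit_le_opNorm _ g2).trans w1)
    have b3 : |W (f - c • u A - g)| ≤ 1 * (2 * (1 / 16)) := W.le_of_opNorm_le_of_le w1 g3
    have b4 := (le_abs_self _).trans ((W.unit_le_opNorm _ (h1 A)).trans w1)
    rw [map_add] at b1
    rw [map_sub] at b2
    rw [map_sub, map_sub, map_smul, smul_eq_mul, abs_le] at b3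
    refine ⟨abs_le.2 ⟨?_, ?_⟩, b4⟩ <;> linarith [b3.1, b3.2]
  obtain ⟨p1, p2⟩ := key _ k1 a3
  obtain ⟨q1, q2⟩ := key _ k2 a4
  have r1 : |c * ((G + H) (u A) - (G - H) (u A))| ≤ 1 * (1 / 4) := by
    rw [abs_mul]
    exact mul_le_mul hc1 (abs_le.2 ⟨by linarith, by linarith⟩) (abs_nonneg _) zero_le_one
  have r2 : (G + H) f - (G - H) f = 2 * H f := by
    rw [add_apply, sub_apply]; ring
  rw [abs_le] at p1 q1 r1
  rw [Real.norm_eq_abs, abs_le]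
  constructor <;> nlinarith [p1.1, p1.2, q1.1, q1.2, r1.1, r1.2]

theorem bid2 {E : Type} [NormedAddCommGroup E] [NormedSpace ℝ E] (e : E ≃L[ℝ] (C0.X × L))
    (he : ∀ x, ‖x‖ = N (e x)) :
    Bad (StrongDual ℝ (StrongDual ℝ E)) := by
  refine bid (Y := StrongDual ℝ E)
    (fun m => NormedSpace.inclusionInDoubleDual ℝ E (e.symm (0, z m))) (fun m => ?_) (eA e)
    (eA_norm e he) (fun A m hm => ?_) (fun f hf c η hη => ?_)
  · refine (NormedSpace.double_dual_bound ℝ E _).trans ?_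
    rw [he, e.apply_symm_apply]
    have := N_up (0, z m)
    simpa [norm_z] using this
  · change eA e A (e.symm (0, z m)) = 1
    rw [eA_apply, e.apply_symm_apply, mask_z A m hm, sm_z]
  · obtain ⟨k, hk⟩ := dec e he f c η hη
    refine ⟨k, fun A hA hm => ⟨f.comp (P e k Aᶜ), eA_add e he k A hA f hf, ?_, hk A hm⟩⟩
    have := eA_add e he k A hA (-f) (by rwa [norm_neg])
    rwa [ContinuousLinearMap.neg_comp, ← sub_eq_add_neg] at this

end Pool.Agent.H.MP_a7d15e_an
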